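import Pool.Agent.W46.MZ.Stm
import Pool.Agent.H447R2.MZ.Tup

/-! Project MZ, part DROP: one relation costs dimensions in every later step. -/

set_option autoImplicit false

namespace Pool.Agent.W700.MZ

open Module Finset

/-- the sum of the first `n` spaces -/
noncomputable def FF (Z : ℕ → Submodule ℚ ℝ) : ℕ → Submodule ℚ ℝ
  | 0 => ⊥
  | n + 1 => FF Z n ⊔ Z n

theorem FF_fd (Z : ℕ → Submodule ℚ ℝ) (hfd : ∀ n, FiniteDimensional ℚ (Z n)) (n : ℕ) :
    FiniteDimensional ℚ (FF Z n) := by
  induction n with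
  | zero => exact (inferInstance : FiniteDimensional ℚ (⊥ : Submodule ℚ ℝ))
  | succ n ih =>
    have := hfd n
    exact (inferInstance : FiniteDimensional ℚ (FF Z n ⊔ Z n : Submodule ℚ ℝ))

theorem le_FF (Z : ℕ → Submodule ℚ ℝ) {i n : ℕ} (h : i < n) : Z i ≤ FF Z n := by
  induction n with
  | zero => omega
  | succ n ih =>
    rcases Nat.lt_succ_iff_lt_or_eq.1 h with h1 | h1
    · exact (ih h1).trans le_sup_left
    · subst h1
      exact le_sup_right

theorem generic (Z : ℕ → Submodule ℚ ℝ) (hfd : ∀ n, FiniteDimensional ℚ (Z n))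
    (hmul : ∀ i j x y, x ∈ Z i → y ∈ Z j → x * y ∈ Z (i + j)) (q : ℕ) (z : ℕ → ℝ)
    (hz : ∀ j, z j ∈ Z j) (hsum : ∑ j ∈ range (q + 1), z j = 0) (hq : z q ≠ 0) (n : ℕ) :
    finrank ℚ (FF Z n) + ∑ j ∈ range (n - q), finrank ℚ (Z j) ≤
      ∑ j ∈ range n, finrank ℚ (Z j) := by
  induction n with
  | zero =>
    have : finrank ℚ (FF Z 0) = 0 := by
      show finrank ℚ (⊥ : Submodule ℚ ℝ) = 0
      exact finrank_bot ℚ ℝ
    simp [this]
  | succ n ih =>
    have h1 := FF_fd Z hfd n
    have h2 := hfd n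
    have hdim := Submodule.finrank_sup_add_finrank_inf_eq (FF Z n) (Z n)
    have hFF : FF Z (n + 1) = FF Z n ⊔ Z n := rfl
    rw [hFF, sum_range_succ _ n]
    rcases lt_or_ge n q with h | h
    · have e1 : n + 1 - q = 0 := by omega
      have e2 : n - q = 0 := by omega
      rw [e1, sum_range_zero]
      rw [e2, sum_range_zero] at ih
      omega
    · have e1 : n + 1 - q = (n - q) + 1 := by omega
      rw [e1, sum_range_succ]
      have key : finrank ℚ (Z (n - q)) ≤ finrank ℚ (FF Z n ⊓ Z n : Submodule ℚ ℝ) := by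
        have h3 := hfd (n - q)
        let L : ℝ →ₗ[ℚ] ℝ := LinearMap.mulLeft ℚ (z q)
        have hL : Function.Injective L := by
          intro a b hab
          exact mul_left_cancel₀ hq hab
        have h4 : finrank ℚ ((Z (n - q)).map L) = finrank ℚ (Z (n - q)) :=
          (Submodule.equivMapOfInjective L hL (Z (n - q))).finrank_eq.symm
        rw [← h4]
        have h5 : (Z (n - q)).map L ≤ FF Z n ⊓ Z n := by
          rintro _ ⟨y, hy, rfl⟩
          have hy' : y ∈ Z (n - q) := hy
          refine ⟨?_, ?_⟩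
          · have e3 : L y = - ∑ i ∈ range q, z i * y := by
              show z q * y = _
              rw [sum_range_succ] at hsum
              have : z q = - ∑ i ∈ range q, z i := by linarith
              rw [this, neg_mul, sum_mul]
            rw [SetLike.mem_coe, e3]
            refine Submodule.neg_mem _ (Submodule.sum_mem _ fun i hi => ?_)
            have hi' : i < q := mem_range.1 hi
            exact le_FF Z (by omega : i + (n - q) < n) (hmul _ _ _ _ (hz i) hy')
          · have h6 := hmul q (n - q) _ _ (hz q) hy'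
            have e4 : q + (n - q) = n := by omega
            rw [e4] at h6
            exact h6
        exact Submodule.finrank_mono h5
      omega

theorem FF_eq (Z : ℕ → Submodule ℚ ℝ) (n : ℕ) : FF Z n = ⨆ j ∈ range n, Z j := by
  refine le_antisymm ?_ (iSup₂_le fun j hj => le_FF Z (mem_range.1 hj))
  induction n with
  | zero => exact bot_le
  | succ n ih =>
    refine sup_le (ih.trans ?_) ?_
    · refine iSup₂_le fun j hj => ?_
      exact le_iSup₂_of_le j (mem_range.2 ((mem_range.1 hj).trans (Nat.lt_succ_self n))) le_rfl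
    · exact le_iSup₂_of_le n (mem_range.2 (Nat.lt_succ_self n)) le_rfl

theorem DROP : Pool.Agent.W46.MZ.S_DROP := by
  classical
  intro hfd P hP p hp
  unfold Pool.Agent.W46.MZ.Direct at hP
  push Not at hP
  obtain ⟨z, hz, hsum, j₀, hj₀, hne⟩ := hP
  set z' : ℕ → ℝ := fun j => if j ≤ P then z j else 0 with hz'
  have hz'mem : ∀ j, z' j ∈ Pool.Agent.W46.MZ.Z j := by
    intro j
    by_cases h : j ≤ P
    · have e : z' j = z j := if_pos h
      rw [e]
      exact hz j (mem_range.2 (Nat.lt_succ_of_le h))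
    · have e : z' j = 0 := if_neg h
      rw [e]
      exact Submodule.zero_mem _
  have hj₀P : j₀ ≤ P := Nat.lt_succ_iff.1 (mem_range.1 hj₀)
  set q := Nat.findGreatest (fun j => z j ≠ 0) P with hq
  have hqP : q ≤ P := Nat.findGreatest_le P
  have hzq : z q ≠ 0 := Nat.findGreatest_spec (P := fun j => z j ≠ 0) hj₀P hne
  have hz'q : z' q ≠ 0 := by
    have e : z' q = z q := if_pos hqP
    rw [e]
    exact hzq
  have hsum' : ∑ j ∈ range (q + 1), z' j = 0 := by
    have h1 : ∑ j ∈ range (q + 1), z' j = ∑ j ∈ range (P + 1), z' j := by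
      refine sum_subset (range_subset_range.2 (by omega)) fun j hj hjq => ?_
      have h2 : j ≤ P := Nat.lt_succ_iff.1 (mem_range.1 hj)
      have h3 : q < j := by
        rw [mem_range] at hjq
        omega
      have h4 : ¬ z j ≠ 0 := Nat.findGreatest_is_greatest (P := fun j => z j ≠ 0) h3 h2
      have e : z' j = z j := if_pos h2
      rw [e]
      exact not_not.1 h4
    rw [h1, ← hsum]
    refine sum_congr rfl fun j hj => ?_
    exact if_pos (Nat.lt_succ_iff.1 (mem_range.1 hj))
  have hmul : ∀ i j x y, x ∈ Pool.Agent.W46.MZ.Z i → y ∈ Pool.Agent.W46.MZ.Z j →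
      x * y ∈ Pool.Agent.W46.MZ.Z (i + j) := fun i j x y hx hy =>
    Pool.Agent.H447R2.MZ.mul_mem i j x y hx hy
  have h := generic Pool.Agent.W46.MZ.Z hfd hmul q z' hz'mem hsum' hz'q (p + 1)
  rw [FF_eq] at h
  have h5 : ∑ j ∈ range (p - P + 1), finrank ℚ (Pool.Agent.W46.MZ.Z j) ≤
      ∑ j ∈ range (p + 1 - q), finrank ℚ (Pool.Agent.W46.MZ.Z j) :=
    sum_le_sum_of_subset (range_subset_range.2 (by omega))
  unfold Pool.Agent.W46.MZ.Fdim Pool.Agent.W46.MZ.Ddim
  omega

end Pool.Agent.W700.MZ
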